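import Pool.Agent.N343.LT.Base
import Pool.Agent.Y819.ZF.Asm

set_option autoImplicit false
set_option linter.all false

namespace Pool.Agent.N592.LT.CP1

open MvPolynomial Finset Pool.Agent.Helper929 Pool.Agent.H604R2.LEC Pool.Agent.Y819.ZF
  Pool.Agent.Y819.ZF.RelM Pool.Agent.Y819.ZF.Rel Pool.Agent.Y819.ZF.Cls Pool.Agent.N343.LT

section
variable {C : Type} [DecidableEq C] {m z : ℕ} {a b : C} (e : C × Fin m ≃ Fin (z + (m + m)))

/-- the numbering puts the cells of `a` and `b` at the end -/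
structure Nmb (a b : C) (e : C × Fin m ≃ Fin (z + (m + m))) : Prop where
  ha : ∀ s : Fin m, e (a, s) = Fin.natAdd z (Fin.castAdd m s)
  hb : ∀ s : Fin m, e (b, s) = Fin.natAdd z (Fin.natAdd m s)

theorem Nmb.sa {e : C × Fin m ≃ Fin (z + (m + m))} (h : Nmb a b e) (s : Fin m) :
    e.symm (Fin.natAdd z (Fin.castAdd m s)) = (a, s) := by
  rw [← h.ha, Equiv.symm_apply_apply]

theorem Nmb.sb {e : C × Fin m ≃ Fin (z + (m + m))} (h : Nmb a b e) (s : Fin m) :
    e.symm (Fin.natAdd z (Fin.natAdd m s)) = (b, s) := by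
  rw [← h.hb, Equiv.symm_apply_apply]

theorem Nmb.sz {e : C × Fin m ≃ Fin (z + (m + m))} (h : Nmb a b e) (i : Fin z) :
    (e.symm (Fin.castAdd (m + m) i)).1 ≠ a ∧ (e.symm (Fin.castAdd (m + m) i)).1 ≠ b := by
  constructor
  · intro h1
    have h2 : e.symm (Fin.castAdd (m + m) i) = (a, (e.symm (Fin.castAdd (m + m) i)).2) :=
      Prod.ext h1 rfl
    have h3 := congrArg e h2
    rw [Equiv.apply_symm_apply, h.ha] at h3
    have h4 := congrArg Fin.val h3
    simp only [Fin.val_castAdd, Fin.val_natAdd] at h4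
    have := i.2
    omega
  · intro h1
    have h2 : e.symm (Fin.castAdd (m + m) i) = (b, (e.symm (Fin.castAdd (m + m) i)).2) :=
      Prod.ext h1 rfl
    have h3 := congrArg e h2
    rw [Equiv.apply_symm_apply, h.hb] at h3
    have h4 := congrArg Fin.val h3
    simp only [Fin.val_castAdd, Fin.val_natAdd] at h4
    have := i.2
    omega

/-- positions -/
theorem Nmb.pos {e : C × Fin m ≃ Fin (z + (m + m))} (h : Nmb a b e) (i : Fin (z + (m + m))) :
    (i.val < z ∧ (e.symm i).1 ≠ a ∧ (e.symm i).1 ≠ b) ∨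
    (z ≤ i.val ∧ i.val < z + m ∧ (e.symm i).1 = a) ∨ (z + m ≤ i.val ∧ (e.symm i).1 = b) := by
  refine Fin.addCases (fun i => ?_) (fun i => ?_) i
  · exact Or.inl ⟨i.2, h.sz i⟩
  · refine Fin.addCases (fun s => ?_) (fun s => ?_) i
    · refine Or.inr (Or.inl ⟨?_, ?_, ?_⟩)
      · exact Nat.le_add_right _ _
      · simp only [Fin.val_natAdd, Fin.val_castAdd]
        have := s.2
        omega
      · rw [h.sa]
    · refine Or.inr (Or.inr ⟨?_, ?_⟩)
      · show z + m ≤ z + (m + s.val)
        omega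
      · rw [h.sb]

/-- the permutations of the cells of `b` -/
def tl (b : C) (e : C × Fin m ≃ Fin (z + (m + m))) (σ : Equiv.Perm (Fin m)) :
    Equiv.Perm (Fin (z + (m + m))) :=
  (e.symm.trans (Equiv.Perm.prodExtendRight b σ)).trans e

theorem sign_tl [Fintype C] (σ : Equiv.Perm (Fin m)) :
    Equiv.Perm.sign (tl b e σ) = Equiv.Perm.sign σ := by
  unfold tl
  rw [Equiv.Perm.sign_symm_trans_trans, Equiv.Perm.sign_prodExtendRight]

theorem tl_symm (σ : Equiv.Perm (Fin m)) : (tl b e σ).symm = tl b e σ.symm := by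
  unfold tl
  ext x
  simp only [Equiv.symm_trans_apply, Equiv.symm_symm, Equiv.trans_apply]
  congr 2

theorem tl_ne {σ : Equiv.Perm (Fin m)} {i : Fin (z + (m + m))} (h : (e.symm i).1 ≠ b) :
    tl b e σ i = i := by
  unfold tl
  rw [Equiv.trans_apply, Equiv.trans_apply]
  have h2 : e.symm i = ((e.symm i).1, (e.symm i).2) := rfl
  rw [h2, Equiv.Perm.prodExtendRight_apply_ne _ h, ← h2, Equiv.apply_symm_apply]

theorem tl_eq {σ : Equiv.Perm (Fin m)} {i : Fin (z + (m + m))} (h : (e.symm i).1 = b) :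
    e.symm (tl b e σ i) = (b, σ (e.symm i).2) := by
  unfold tl
  rw [Equiv.trans_apply, Equiv.trans_apply, Equiv.symm_apply_apply]
  have h2 : e.symm i = (b, (e.symm i).2) := Prod.ext h rfl
  conv_lhs => rw [h2]
  rw [Equiv.Perm.prodExtendRight_apply_eq]

/-- the common exponents -/
def κ (A : C → C → ℕ) (m : ℕ) (φ : C → C) (a b : C) (v w : C × Fin m) : ℕ :=
  if (v.1 = a ∨ v.1 = b) ∧ (w.1 = a ∨ w.1 = b) then (if v.1 = w.1 then 0 else A a b)
  else MI A m φ v w

/-- the two cliques -/
def DD (a b : C) (v w : C × Fin m) : ℕ := if v.1 = w.1 ∧ (v.1 = a ∨ v.1 = b) then 1 else 0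

/-- the bipartite graph -/
def MM (a b : C) (v w : C × Fin m) : ℕ := if v.1 = a ∧ w.1 = b ∧ v.2 ≠ w.2 then 1 else 0

theorem split1 {e : C × Fin m ≃ Fin (z + (m + m))} (h : Nmb a b e) (A : C → C → ℕ) (φ : C → C)
    (hs : ∀ c d, A c d = A d c) (h0 : ∀ c, A c c = 0) (hab : a ≠ b) (ha : φ a = a) (hb : φ b = b)
    (i j : Fin (z + (m + m))) (hij : i < j) :
    MI A m φ (e.symm i) (e.symm j) = κ A m φ a b (e.symm i) (e.symm j) +
      DD a b (e.symm i) (e.symm j) := by
  have hne : e.symm i ≠ e.symm j := fun h1 => hij.ne (e.symm.injective h1)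
  unfold κ DD MI
  generalize e.symm i = v at *
  generalize e.symm j = w at *
  obtain ⟨v1, v2⟩ := v
  obtain ⟨w1, w2⟩ := w
  simp only at *
  by_cases h1 : v1 = a
  · subst h1
    by_cases h2 : w1 = v1
    · subst h2
      have h3 : v2 ≠ w2 := fun h4 => hne (by rw [h4])
      simp [h0, ha, h3]
    · by_cases h3 : w1 = b
      · subst h3
        simp [hab, ha, hab.symm]
      · have h4 : ¬ v1 = w1 := fun h5 => h2 h5.symm
        simp [h2, h3, h4]
  · by_cases h2 : v1 = b
    · subst h2
      by_cases h3 : w1 = v1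
      · subst h3
        have h4 : v2 ≠ w2 := fun h5 => hne (by rw [h5])
        simp [h0, hb, h4]
      · by_cases h4 : w1 = a
        · subst h4
          simp [hab, hb, hab.symm, hs v1 w1]
        · have h5 : ¬ v1 = w1 := fun h6 => h3 h6.symm
          simp [h3, h4, h5]
    · simp [h1, h2]

theorem split2 {e : C × Fin m ≃ Fin (z + (m + m))} (h : Nmb a b e) (A : C → C → ℕ) (φ : C → C)
    (hs : ∀ c d, A c d = A d c) (h0 : ∀ c, A c c = 0) (hab : a ≠ b) (ha : φ a = a) (hb : φ b = b)
    (hφ : ∀ c, φ (φ c) = c)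
    (i j : Fin (z + (m + m))) (hij : i < j) :
    MI A m (fun c => Equiv.swap a b (φ c)) (e.symm i) (e.symm j) =
      κ A m φ a b (e.symm i) (e.symm j) + MM a b (e.symm i) (e.symm j) := by
  have hne : e.symm i ≠ e.symm j := fun h1 => hij.ne (e.symm.injective h1)
  have hp1 := h.pos i
  have hp2 := h.pos j
  have hba : ¬ ((e.symm i).1 = b ∧ (e.symm j).1 = a) := by
    rintro ⟨h1, h2⟩
    rw [h1] at hp1
    rw [h2] at hp2
    have h3 : z + m ≤ i.val := by
      rcases hp1 with h4 | h4 | h4
      · exact absurd rfl h4.2.2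
      · exact absurd h4.2.2.symm hab
      · exact h4.1
    have h5 : j.val < z + m := by
      rcases hp2 with h4 | h4 | h4
      · exact absurd rfl h4.2.1
      · exact h4.2.1
      · exact absurd h4.2 hab
    have h6 : i.val < j.val := hij
    omega
  unfold κ MM MI
  generalize e.symm i = v at *
  generalize e.symm j = w at *
  obtain ⟨v1, v2⟩ := v
  obtain ⟨w1, w2⟩ := w
  simp only at *
  by_cases h1 : v1 = a
  · have hsw : (Equiv.swap a b) (φ v1) = b := by rw [h1, ha, Equiv.swap_apply_left]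
    simp only [hsw]
    subst h1
    by_cases h2 : w1 = v1
    · subst h2
      simp [h0, hab]
    · by_cases h3 : w1 = b
      · subst h3
        simp [hab, hab.symm]
      · have h4 : ¬ v1 = w1 := fun h5 => h2 h5.symm
        simp [h2, h3, h4, ha]
  · by_cases h2 : v1 = b
    · have hsw : (Equiv.swap a b) (φ v1) = a := by rw [h2, hb, Equiv.swap_apply_right]
      simp only [hsw]
      subst h2
      by_cases h3 : w1 = v1
      · subst h3
        simp [h0, h1]
      · by_cases h4 : w1 = a
        · exact absurd ⟨rfl, h4⟩ hba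
        · simp [h3, h4, h1, hb]
    · have h3 : φ v1 ≠ a := fun h4 => h1 (by rw [← hφ v1, h4, ha])
      have h4 : φ v1 ≠ b := fun h5 => h2 (by rw [← hφ v1, h5, hb])
      have hsw : (Equiv.swap a b) (φ v1) = φ v1 := Equiv.swap_apply_of_ne_of_ne h3 h4
      simp only [hsw]
      simp [h1, h2]

theorem inv1 {e : C × Fin m ≃ Fin (z + (m + m))} (h : Nmb a b e) (A : C → C → ℕ) (φ : C → C)
    (hab : a ≠ b) (ha : φ a = a) (hb : φ b = b) (hφ : ∀ c, φ (φ c) = c)
    (σ : Equiv.Perm (Fin m)) (i j : Fin (z + (m + m))) (hij : i < j)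
    (hk : κ A m φ a b (e.symm i) (e.symm j) ≠ 0) :
    tl b e σ i < tl b e σ j ∧ κ A m φ a b (e.symm (tl b e σ i)) (e.symm (tl b e σ j)) =
      κ A m φ a b (e.symm i) (e.symm j) := by
  have hp1 := h.pos i
  have hp2 := h.pos j
  have hib : (e.symm i).1 ≠ b := by
    intro h1
    have h2 : (e.symm j).1 = b := by
      rw [h1] at hp1
      have h3 : z + m ≤ i.val := by
        rcases hp1 with h4 | h4 | h4
        · exact absurd rfl h4.2.2
        · exact absurd h4.2.2.symm hab
        · exact h4.1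
      have h6 : i.val < j.val := hij
      rcases hp2 with h4 | h4 | h4
      · omega
      · omega
      · exact h4.2
    apply hk
    unfold κ
    rw [if_pos ⟨Or.inr h1, Or.inr h2⟩, if_pos (by rw [h1, h2])]
  rw [tl_ne e hib]
  by_cases hjb : (e.symm j).1 = b
  · have h3 := tl_eq e (σ := σ) hjb
    have hp3 := h.pos (tl b e σ j)
    rw [h3] at hp3
    have h4 : z + m ≤ (tl b e σ j).val := by
      rcases hp3 with h4 | h4 | h4
      · exact absurd rfl h4.2.2
      · exact absurd h4.2.2.symm hab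
      · exact h4.1
    refine ⟨?_, ?_⟩
    · show i.val < (tl b e σ j).val
      rcases hp1 with h5 | h5 | h5
      · omega
      · omega
      · exact absurd h5.2 hib
    · rw [h3]
      have h5 : e.symm j = (b, (e.symm j).2) := Prod.ext hjb rfl
      conv_rhs => rw [h5]
      unfold κ
      by_cases h6 : (e.symm i).1 = a
      · simp only [h6, true_or, or_true, and_self, if_true]
      · have h7 : ¬ (((e.symm i).1 = a ∨ (e.symm i).1 = b) ∧ (b = a ∨ b = b)) := by
          rintro ⟨h8 | h8, _⟩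
          · exact h6 h8
          · exact hib h8
        rw [if_neg h7, if_neg h7]
        unfold MI
        have h8 : b ≠ φ (e.symm i).1 := by
          intro h9
          apply hib
          rw [← hφ (e.symm i).1, ← h9, hb]
        simp [h8]
  · rw [tl_ne e hjb]
    exact ⟨hij, rfl⟩

theorem inv2 {R : Type} [CommRing R] {e : C × Fin m ≃ Fin (z + (m + m))} (h : Nmb a b e)
    (A : C → C → ℕ) (φ : C → C)
    (hab : a ≠ b) (ha : φ a = a) (hb : φ b = b) (hφ : ∀ c, φ (φ c) = c)
    (σ : Equiv.Perm (Fin m)) :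
    rename (tl b e σ) (GP R fun i j => κ A m φ a b (e.symm i) (e.symm j)) =
      GP R fun i j => κ A m φ a b (e.symm i) (e.symm j) := by
  refine GP_inv _ _ (fun i j hij hk => inv1 h A φ hab ha hb hφ σ i j hij hk) ?_
  rw [tl_symm]
  exact fun i j hij hk => inv1 h A φ hab ha hb hφ σ.symm i j hij hk

theorem gpD {R : Type} [CommRing R] {e : C × Fin m ≃ Fin (z + (m + m))} (h : Nmb a b e)
    (hab : a ≠ b) :
    GP R (fun i j => DD a b (e.symm i) (e.symm j)) =
      ∏ i : Fin m, ∏ j : Fin m, if i < j then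
        ((X (e (a, i)) : MvPolynomial (Fin (z + (m + m))) R) - X (e (a, j))) *
          (X (e (b, i)) - X (e (b, j))) else 1 := by
  unfold GP
  rw [Fin.prod_univ_add, Fin.prod_univ_add]
  have h1 : ∏ i : Fin z, ∏ j : Fin (z + (m + m)), (if Fin.castAdd (m + m) i < j then
      ((X (Fin.castAdd (m + m) i) : MvPolynomial (Fin (z + (m + m))) R) - X j) ^
        (DD a b (e.symm (Fin.castAdd (m + m) i)) (e.symm j)) else 1) = 1 := by
    refine Finset.prod_eq_one fun i _ => Finset.prod_eq_one fun j _ => ?_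
    have h2 := h.sz i
    have h3 : DD a b (e.symm (Fin.castAdd (m + m) i)) (e.symm j) = 0 := by
      unfold DD
      rw [if_neg]
      rintro ⟨_, h4 | h4⟩
      · exact h2.1 h4
      · exact h2.2 h4
    rw [h3, pow_zero, ite_self]
  rw [h1, one_mul, ← Finset.prod_mul_distrib]
  refine Finset.prod_congr rfl fun s _ => ?_
  rw [Fin.prod_univ_add, Fin.prod_univ_add, Fin.prod_univ_add, Fin.prod_univ_add]
  have h2 : ∀ (i : Fin (m + m)), ∏ j : Fin z, (if Fin.natAdd z i < Fin.castAdd (m + m) j then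
      ((X (Fin.natAdd z i) : MvPolynomial (Fin (z + (m + m))) R) - X (Fin.castAdd (m + m) j)) ^
        (DD a b (e.symm (Fin.natAdd z i)) (e.symm (Fin.castAdd (m + m) j))) else 1) = 1 := by
    intro i
    refine Finset.prod_eq_one fun j _ => ?_
    rw [if_neg]
    intro h3
    have h4 : z + i.val < j.val := h3
    have := j.2
    omega
  rw [h2, h2, one_mul, one_mul]
  have h3 : ∏ i : Fin m, (if Fin.natAdd z (Fin.castAdd m s) < Fin.natAdd z (Fin.natAdd m i) then
      ((X (Fin.natAdd z (Fin.castAdd m s)) : MvPolynomial (Fin (z + (m + m))) R) -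
        X (Fin.natAdd z (Fin.natAdd m i))) ^
        (DD a b (e.symm (Fin.natAdd z (Fin.castAdd m s))) (e.symm (Fin.natAdd z (Fin.natAdd m i))))
        else 1) = 1 := by
    refine Finset.prod_eq_one fun j _ => ?_
    rw [h.sa, h.sb]
    have h4 : DD a b (a, s) (b, j) = 0 := by
      unfold DD
      rw [if_neg]
      rintro ⟨h5, _⟩
      exact hab h5
    rw [h4, pow_zero, ite_self]
  have h4 : ∏ i : Fin m, (if Fin.natAdd z (Fin.natAdd m s) < Fin.natAdd z (Fin.castAdd m i) then
      ((X (Fin.natAdd z (Fin.natAdd m s)) : MvPolynomial (Fin (z + (m + m))) R) -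
        X (Fin.natAdd z (Fin.castAdd m i))) ^
        (DD a b (e.symm (Fin.natAdd z (Fin.natAdd m s))) (e.symm (Fin.natAdd z (Fin.castAdd m i))))
        else 1) = 1 := by
    refine Finset.prod_eq_one fun j _ => ?_
    rw [if_neg]
    intro h3
    have h4 : z + (m + s.val) < z + j.val := h3
    have := j.2
    omega
  rw [h3, h4, mul_one, one_mul, ← Finset.prod_mul_distrib]
  refine Finset.prod_congr rfl fun t _ => ?_
  beta_reduce
  rw [h.sa, h.sa, h.sb, h.sb, h.ha, h.ha, h.hb, h.hb]
  have h5 : DD a b (a, s) (a, t) = 1 := by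
    unfold DD
    rw [if_pos ⟨rfl, Or.inl rfl⟩]
  have h6 : DD a b (b, s) (b, t) = 1 := by
    unfold DD
    rw [if_pos ⟨rfl, Or.inr rfl⟩]
  rw [h5, h6, pow_one, pow_one]
  by_cases h7 : s < t
  · rw [if_pos (show Fin.natAdd z (Fin.castAdd m s) < Fin.natAdd z (Fin.castAdd m t) from by
        show z + s.val < z + t.val
        have : s.val < t.val := h7
        omega),
      if_pos (show Fin.natAdd z (Fin.natAdd m s) < Fin.natAdd z (Fin.natAdd m t) from by
        show z + (m + s.val) < z + (m + t.val)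
        have : s.val < t.val := h7
        omega), if_pos h7]
  · rw [if_neg (show ¬ Fin.natAdd z (Fin.castAdd m s) < Fin.natAdd z (Fin.castAdd m t) from by
        intro h8
        have h9 : z + s.val < z + t.val := h8
        have : ¬ s.val < t.val := h7
        omega),
      if_neg (show ¬ Fin.natAdd z (Fin.natAdd m s) < Fin.natAdd z (Fin.natAdd m t) from by
        intro h8
        have h9 : z + (m + s.val) < z + (m + t.val) := h8
        have : ¬ s.val < t.val := h7
        omega), if_neg h7, one_mul]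

theorem gpM {R : Type} [CommRing R] {e : C × Fin m ≃ Fin (z + (m + m))} (h : Nmb a b e)
    (hab : a ≠ b) :
    GP R (fun i j => MM a b (e.symm i) (e.symm j)) =
      ∏ s : Fin m, ∏ t ∈ univ.erase s,
        ((X (e (a, s)) : MvPolynomial (Fin (z + (m + m))) R) - X (e (b, t))) := by
  unfold GP
  rw [Fin.prod_univ_add, Fin.prod_univ_add]
  have h1 : ∏ i : Fin z, ∏ j : Fin (z + (m + m)), (if Fin.castAdd (m + m) i < j then
      ((X (Fin.castAdd (m + m) i) : MvPolynomial (Fin (z + (m + m))) R) - X j) ^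
        (MM a b (e.symm (Fin.castAdd (m + m) i)) (e.symm j)) else 1) = 1 := by
    refine Finset.prod_eq_one fun i _ => Finset.prod_eq_one fun j _ => ?_
    have h2 := h.sz i
    have h3 : MM a b (e.symm (Fin.castAdd (m + m) i)) (e.symm j) = 0 := by
      unfold MM
      rw [if_neg]
      rintro ⟨h4, _⟩
      exact h2.1 h4
    rw [h3, pow_zero, ite_self]
  have h1' : ∏ i : Fin m, ∏ j : Fin (z + (m + m)), (if Fin.natAdd z (Fin.natAdd m i) < j then
      ((X (Fin.natAdd z (Fin.natAdd m i)) : MvPolynomial (Fin (z + (m + m))) R) - X j) ^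
        (MM a b (e.symm (Fin.natAdd z (Fin.natAdd m i))) (e.symm j)) else 1) = 1 := by
    refine Finset.prod_eq_one fun i _ => Finset.prod_eq_one fun j _ => ?_
    rw [h.sb]
    have h3 : MM a b (b, i) (e.symm j) = 0 := by
      unfold MM
      rw [if_neg]
      rintro ⟨h4, _⟩
      exact hab h4.symm
    rw [h3, pow_zero, ite_self]
  rw [h1, h1', one_mul, mul_one]
  refine Finset.prod_congr rfl fun s _ => ?_
  rw [Fin.prod_univ_add, Fin.prod_univ_add]
  have h2 : ∏ j : Fin z, (if Fin.natAdd z (Fin.castAdd m s) < Fin.castAdd (m + m) j then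
      ((X (Fin.natAdd z (Fin.castAdd m s)) : MvPolynomial (Fin (z + (m + m))) R) -
        X (Fin.castAdd (m + m) j)) ^
        (MM a b (e.symm (Fin.natAdd z (Fin.castAdd m s))) (e.symm (Fin.castAdd (m + m) j)))
        else 1) = 1 := by
    refine Finset.prod_eq_one fun j _ => ?_
    rw [if_neg]
    intro h3
    have h4 : z + s.val < j.val := h3
    have := j.2
    omega
  have h3 : ∏ i : Fin m, (if Fin.natAdd z (Fin.castAdd m s) < Fin.natAdd z (Fin.castAdd m i) then
      ((X (Fin.natAdd z (Fin.castAdd m s)) : MvPolynomial (Fin (z + (m + m))) R) -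
        X (Fin.natAdd z (Fin.castAdd m i))) ^
        (MM a b (e.symm (Fin.natAdd z (Fin.castAdd m s))) (e.symm (Fin.natAdd z (Fin.castAdd m i))))
        else 1) = 1 := by
    refine Finset.prod_eq_one fun j _ => ?_
    rw [h.sa, h.sa]
    have h4 : MM a b (a, s) (a, j) = 0 := by
      unfold MM
      rw [if_neg]
      rintro ⟨_, h5, _⟩
      exact hab h5
    rw [h4, pow_zero, ite_self]
  rw [h2, h3, one_mul, one_mul, ← Finset.filter_ne', Finset.prod_filter]
  refine Finset.prod_congr rfl fun t _ => ?_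
  beta_reduce
  rw [h.sa, h.sb, h.ha, h.hb, if_pos (show Fin.natAdd z (Fin.castAdd m s) <
      Fin.natAdd z (Fin.natAdd m t) from by
        show z + s.val < z + (m + t.val)
        have := s.2
        omega)]
  unfold MM
  by_cases h7 : t ≠ s
  · rw [if_pos h7, if_pos ⟨rfl, rfl, fun h8 => h7 h8.symm⟩, pow_one]
  · rw [if_neg h7, if_neg, pow_zero]
    rintro ⟨_, _, h8⟩
    exact h7 fun h9 => h8 h9.symm

theorem gpM_rename {R : Type} [CommRing R] {e : C × Fin m ≃ Fin (z + (m + m))} (h : Nmb a b e)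
    (hab : a ≠ b) (σ : Equiv.Perm (Fin m)) :
    rename (tl b e σ) (GP R (fun i j => MM a b (e.symm i) (e.symm j))) =
      ∏ s : Fin m, ∏ t ∈ univ.erase (σ s),
        ((X (e (a, s)) : MvPolynomial (Fin (z + (m + m))) R) - X (e (b, t))) := by
  rw [gpM h hab, map_prod]
  refine Finset.prod_congr rfl fun s _ => ?_
  rw [map_prod]
  refine Finset.prod_bij' (fun t _ => σ t) (fun t _ => σ.symm t) ?_ ?_ ?_ ?_ ?_
  · intro t ht
    rw [Finset.mem_erase] at ht ⊢
    exact ⟨fun h1 => ht.1 (σ.injective h1), mem_univ _⟩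
  · intro t ht
    rw [Finset.mem_erase] at ht ⊢
    refine ⟨fun h1 => ht.1 ?_, mem_univ _⟩
    rw [← h1, Equiv.apply_symm_apply]
  · intro t _
    exact σ.symm_apply_apply t
  · intro t _
    exact σ.apply_symm_apply t
  · intro t _
    rw [map_sub, rename_X, rename_X]
    have h1 : tl b e σ (e (a, s)) = e (a, s) := tl_ne e (by
      rw [Equiv.symm_apply_apply]
      exact hab)
    have h2 : tl b e σ (e (b, t)) = e (b, σ t) := by
      have h3 := tl_eq e (σ := σ) (i := e (b, t)) (b := b) (by rw [Equiv.symm_apply_apply])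
      rw [Equiv.symm_apply_apply] at h3
      rw [← h3, Equiv.apply_symm_apply]
    rw [h1, h2]

end

theorem main (hCAU : S_CAU) (hFUN : S_FUN) (hNUM : S_NUM) : S_CP1 := by
  classical
  intro p hp hp2 C _ _ A m φ a b hm hs h0 hφ hab ha hb hreg hreg'
  -- the numbering
  have hcard : ∃ z, Fintype.card (C × Fin m) = z + (m + m) := by
    have h1 : 2 ≤ Fintype.card C := by
      have : Nontrivial C := ⟨a, b, hab⟩
      exact Fintype.one_lt_card
    refine ⟨Fintype.card (C × Fin m) - (m + m), ?_⟩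
    rw [Fintype.card_prod, Fintype.card_fin]
    have h2 : 2 * m ≤ Fintype.card C * m := Nat.mul_le_mul_right m h1
    omega
  obtain ⟨z, hz⟩ := hcard
  have hinj : Function.Injective (Fin.append (fun s : Fin m => (a, s)) (fun s : Fin m => (b, s))) := by
    intro i j
    refine Fin.addCases (fun i => ?_) (fun i => ?_) i <;>
    refine Fin.addCases (fun j => ?_) (fun j => ?_) j <;> intro hij
    · rw [Fin.append_left, Fin.append_left] at hij
      have h1 : i = j := (Prod.ext_iff.1 hij).2
      rw [h1]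
    · rw [Fin.append_left, Fin.append_right] at hij
      exact absurd (Prod.ext_iff.1 hij).1 hab
    · rw [Fin.append_left, Fin.append_right] at hij
      exact absurd (Prod.ext_iff.1 hij).1.symm hab
    · rw [Fin.append_right, Fin.append_right] at hij
      have h1 : i = j := (Prod.ext_iff.1 hij).2
      rw [h1]
  obtain ⟨e, he, -⟩ := Asm.exists_equiv hz _ hinj
  have hN : Nmb a b e := by
    constructor
    · intro s
      have := he (Fin.castAdd m s)
      rwa [Fin.append_left] at this
    · intro s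
      have := he (Fin.natAdd m s)
      rwa [Fin.append_right] at this
  -- the numbering does not matter
  have hok : ∀ ν : C × Fin m → C × Fin m → ℕ, RegM (p - 2) ν → (OK p (C × Fin m) ν ↔
      cc (ZMod p) (p - 2) (mτ (nm ν e)) (mη (nm ν e)) ≠ 0) := by
    intro ν hν
    constructor
    · intro h1
      exact h1 _ e
    · intro h1 n e'
      have hn : n = z + (m + m) := by
        rw [← hz, Fintype.card_congr e', Fintype.card_fin]
      subst hn
      exact hNUM p (p - 2) _ ν hν.symm _ e e' h1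
  rw [hok _ hreg, hok _ hreg']
  have hR := regM_iso e _ hreg
  have hR' := regM_iso e _ hreg'
  obtain ⟨Λ, hΛ⟩ := hFUN p hp2 _ (RelS.even_card p hp2 _ _ hR)
  have h1 := (hΛ _ hR).1
  have h2 := (hΛ _ hR').1
  have h3 : cc (ZMod p) (p - 2) (mτ (nm (MI A m φ) e)) (mη (nm (MI A m φ) e)) = 0 ↔
    Λ (GP (ZMod p) fun v w => MI A m φ (e.symm v) (e.symm w)) = 0 := h1.symm
  have h4 : cc (ZMod p) (p - 2) (mτ (nm (MI A m fun c => Equiv.swap a b (φ c)) e))
      (mη (nm (MI A m fun c => Equiv.swap a b (φ c)) e)) = 0 ↔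
    Λ (GP (ZMod p) fun v w => MI A m (fun c => Equiv.swap a b (φ c)) (e.symm v) (e.symm w)) = 0 :=
    h2.symm
  rw [Ne, Ne, h3, h4, not_iff_not]
  -- the relation
  obtain ⟨ε, hε, hcau⟩ := hCAU m
  have hg1 : (GP (ZMod p) fun v w => MI A m φ (e.symm v) (e.symm w)) =
      (GP (ZMod p) fun i j => κ A m φ a b (e.symm i) (e.symm j)) *
        GP (ZMod p) (fun i j => DD a b (e.symm i) (e.symm j)) :=
    GP_mul fun i j hij => split1 hN A φ hs h0 hab ha hb i j hij
  have hg2 : (GP (ZMod p) fun v w => MI A m (fun c => Equiv.swap a b (φ c)) (e.symm v) (e.symm w)) =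
      (GP (ZMod p) fun i j => κ A m φ a b (e.symm i) (e.symm j)) *
        GP (ZMod p) (fun i j => MM a b (e.symm i) (e.symm j)) :=
    GP_mul fun i j hij => split2 hN A φ hs h0 hab ha hb hφ i j hij
  have hg3 : (GP (ZMod p) fun v w => MI A m φ (e.symm v) (e.symm w)) =
      (ε : MvPolynomial (Fin (z + (m + m))) (ZMod p)) * ∑ σ : Equiv.Perm (Fin m),
        (((Equiv.Perm.sign σ : ℤˣ) : ℤ) : MvPolynomial (Fin (z + (m + m))) (ZMod p)) *
        rename (tl b e σ) (GP (ZMod p) fun v w =>
          MI A m (fun c => Equiv.swap a b (φ c)) (e.symm v) (e.symm w)) := by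
    rw [hg1, gpD hN hab, hcau _ (fun i => X (e (a, i))) (fun i => X (e (b, i))), ← mul_assoc,
      mul_comm (GP (ZMod p) _) (ε : MvPolynomial (Fin (z + (m + m))) (ZMod p)), mul_assoc,
      Finset.mul_sum]
    congr 1
    refine Finset.sum_congr rfl fun σ _ => ?_
    rw [hg2, map_mul, inv2 hN A φ hab ha hb hφ σ, gpM_rename hN hab σ]
    ring
  have hg4 : Λ (GP (ZMod p) fun v w => MI A m φ (e.symm v) (e.symm w)) =
      (ε : ZMod p) * ((m.factorial : ℕ) : ZMod p) *
        Λ (GP (ZMod p) fun v w => MI A m (fun c => Equiv.swap a b (φ c)) (e.symm v) (e.symm w)) := by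
    have hcast : ∀ (k : ℤ) (P : MvPolynomial (Fin (z + (m + m))) (ZMod p)),
        Λ ((k : MvPolynomial (Fin (z + (m + m))) (ZMod p)) * P) = (k : ZMod p) * Λ P := by
      intro k P
      rw [← zsmul_eq_mul, map_zsmul, zsmul_eq_mul]
    rw [hg3, hcast, map_sum, mul_assoc]
    congr 1
    have h5 : ∀ σ : Equiv.Perm (Fin m), Λ ((((Equiv.Perm.sign σ : ℤˣ) : ℤ) :
        MvPolynomial (Fin (z + (m + m))) (ZMod p)) *
        rename (tl b e σ) (GP (ZMod p) fun v w =>
          MI A m (fun c => Equiv.swap a b (φ c)) (e.symm v) (e.symm w))) =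
        Λ (GP (ZMod p) fun v w => MI A m (fun c => Equiv.swap a b (φ c)) (e.symm v) (e.symm w)) := by
      intro σ
      rw [hcast, (hΛ _ hR').2, sign_tl]
      rcases Int.units_eq_one_or (Equiv.Perm.sign σ) with h6 | h6
      · rw [h6]
        simp
      · rw [h6]
        simp
    rw [Finset.sum_congr rfl fun σ _ => h5 σ, Finset.sum_const, Finset.card_univ, Fintype.card_perm,
      Fintype.card_fin, nsmul_eq_mul]
  rw [hg4]
  have hε' : (ε : ZMod p) ≠ 0 := by
    rcases hε with h5 | h5
    · rw [h5]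
      simp
    · rw [h5]
      simp
  have hf : ((m.factorial : ℕ) : ZMod p) ≠ 0 := by
    rw [Ne, ZMod.natCast_eq_zero_iff, hp.out.dvd_factorial]
    omega
  constructor
  · intro h5
    rcases mul_eq_zero.1 h5 with h6 | h6
    · exact absurd h6 (mul_ne_zero hε' hf)
    · exact h6
  · intro h5
    rw [h5, mul_zero]

end Pool.Agent.N592.LT.CP1
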