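import Pool.Agent.N848.LT.Stm
import Pool.Agent.Y38.LC.GLF

/-!
# Project LT (helper848), part UNQ by helper592: quadratic extensions unramified above `q`
-/

set_option autoImplicit false

namespace Pool.Agent.N592.LT.UNQ

open NumberField IsDedekindDomain Module Pool.Agent.H637R2.Leo Pool.Agent.Y18.LC Pool.Agent.N848.LT
open WithZero

section val

variable {F F' : Type} [Field F] [Field F'] (A : F →+* F')
  (v : Valuation F (WithZero (Multiplicative ℤ))) (w : Valuation F' (WithZero (Multiplicative ℤ)))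
  (hw : ∀ x, w (A x) = v x) (π : F) (hπ : v π = exp (-1 : ℤ))

include hπ in
theorem pow_val (k : ℤ) : v (π ^ k) = exp (-k) := by
  rw [map_zpow₀, hπ, ← exp_zsmul]
  congr 1
  simp

include hw hπ in
/-- a first approximation -/
theorem start (m : F) (s : F') (hs : s ^ 2 = A m) (hm : m ≠ 0) : ∃ y, v (m * y ^ 2) = 1 := by
  have hs0 : s ≠ 0 := by
    rintro rfl
    apply hm
    apply A.injective
    rw [← hs, map_zero]
    ring
  have hws : w s ≠ 0 := (Valuation.ne_zero_iff w).2 hs0
  have h1 : v m = w s ^ 2 := by rw [← hw, ← hs, map_pow]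
  refine ⟨π ^ (log (w s)), ?_⟩
  rw [map_mul, map_pow, pow_val v π hπ, h1, ← mul_pow]
  nth_rewrite 1 [← exp_log hws]
  rw [← exp_add, add_neg_cancel, exp_zero, one_pow]

include hw hπ in
theorem core (hsq : ∀ x, v x ≤ 1 → ∃ t, v t ≤ 1 ∧ v (x - t ^ 2) < 1) (h2 : v 2 < 1)
    (h20 : v 2 ≠ 0) (m : F) (s : F') (hs : s ^ 2 = A m) (hm : m ≠ 0) :
    ∃ y, v (m * y ^ 2) = 1 ∧ v (m * y ^ 2 - 1) ≤ v 4 := by
  have h4 : v 4 = v 2 ^ 2 := by
    rw [← map_pow]
    norm_num
  have hlt : ∀ (x : WithZero (Multiplicative ℤ)) (j : ℤ), x < exp (-j) → x ≤ exp (-(j + 1)) := by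
    intro x j hx
    rcases eq_or_ne x 0 with rfl | hx0
    · exact zero_le
    · rw [← exp_log hx0, exp_lt_exp] at hx
      rw [← exp_log hx0, exp_le_exp]
      omega
  have claim : ∀ j : ℕ, ∃ y, v (m * y ^ 2) = 1 ∧
      (v (m * y ^ 2 - 1) ≤ exp (-((j : ℤ) + 1)) ∨ v (m * y ^ 2 - 1) ≤ v 4) := by
    intro j
    induction j with
    | zero =>
      obtain ⟨y, hy⟩ := start A v w hw π hπ m s hs hm
      obtain ⟨t, ht, ht2⟩ := hsq _ hy.le
      have ht1 : v (t ^ 2) = 1 := by
        have h5 : v (t ^ 2) = v (m * y ^ 2) := by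
          have h6 : v (m * y ^ 2 - t ^ 2) < v (m * y ^ 2) := by rw [hy]; exact ht2
          have h7 := Valuation.map_sub_eq_of_lt_right v h6
          have h8 : m * y ^ 2 - t ^ 2 - m * y ^ 2 = -(t ^ 2) := by ring
          rw [h8, Valuation.map_neg] at h7
          exact h7
        rw [h5, hy]
      have ht0 : t ≠ 0 := by
        rintro rfl
        rw [zero_pow two_ne_zero, map_zero] at ht1
        exact zero_ne_one ht1
      refine ⟨y / t, ?_, Or.inl ?_⟩
      · rw [div_pow, mul_div_assoc', map_div₀, hy, ht1, div_one]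
      · have h5 : m * (y / t) ^ 2 - 1 = (m * y ^ 2 - t ^ 2) / t ^ 2 := by
          field_simp
        rw [h5, map_div₀, ht1, div_one]
        exact hlt _ 0 (by rw [neg_zero, exp_zero]; exact ht2)
    | succ j ih =>
      obtain ⟨y, hy, h | h⟩ := ih
      swap
      · exact ⟨y, hy, Or.inr h⟩
      by_cases h5 : v (m * y ^ 2 - 1) ≤ v 4
      · exact ⟨y, hy, Or.inr h5⟩
      by_cases h6 : v (m * y ^ 2 - 1) ≤ exp (-((j : ℤ) + 1 + 1))
      · exact ⟨y, hy, Or.inl (by push_cast; exact h6)⟩
      rw [not_le] at h5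
      have h7 : v (m * y ^ 2 - 1) = exp (-((j : ℤ) + 1)) := by
        apply le_antisymm h
        by_contra hc
        rw [not_le] at hc
        exact h6 (hlt _ _ hc)
      clear h6
      -- the square root
      set S := A y * s with hS
      have hS2 : (S - 1) * (S + 1) = A (m * y ^ 2 - 1) := by
        rw [map_sub, map_mul, map_pow, ← hs, map_one]
        ring
      have hp : w (S - 1) * w (S + 1) = exp (-((j : ℤ) + 1)) := by
        rw [← map_mul, hS2, hw, h7]
      have hw2 : w 2 = v 2 := by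
        have h20' : (2 : F') = A 2 := (map_ofNat A 2).symm
        rw [h20', hw]
      have h8 : v 2 < w (S - 1) := by
        by_contra hc
        rw [not_lt] at hc
        have h9 : w (S + 1) ≤ v 2 := by
          have h10 : S + 1 = (S - 1) + 2 := by ring
          rw [h10]
          exact (Valuation.map_add_le w hc (le_of_eq hw2))
        have h10 : v (m * y ^ 2 - 1) ≤ v 4 := by
          rw [h7, ← hp, h4, pow_two]
          exact mul_le_mul' hc h9
        exact absurd h5 (not_lt.2 h10)
      have h9 : w (S + 1) = w (S - 1) := by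
        have h10 : S + 1 = (S - 1) + 2 := by ring
        rw [h10]
        exact Valuation.map_add_eq_of_lt_left w (by rw [hw2]; exact h8)
      have h10 : w (S - 1) ≠ 0 := by
        intro h0
        rw [h0] at h8
        exact not_lt_zero h8
      obtain ⟨d, hd⟩ : ∃ d : ℤ, w (S - 1) = exp (-d) := ⟨-log (w (S - 1)), by
        rw [neg_neg, exp_log h10]⟩
      have hjd : (j : ℤ) + 1 = 2 * d := by
        rw [h9, hd, ← exp_add] at hp
        have := exp_injective hp
        omega
      have hd1 : 1 ≤ d := by omega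
      -- the correction
      have hx : v ((m * y ^ 2 - 1) / π ^ (2 * d)) ≤ 1 := by
        rw [map_div₀, h7, pow_val v π hπ, hjd, div_self (exp_ne_zero)]
      obtain ⟨t, ht, ht2⟩ := hsq _ hx
      have hπ0 : π ≠ 0 := by
        intro h0
        rw [h0, map_zero] at hπ
        exact exp_ne_zero hπ.symm
      have hπd : v (π ^ d) = exp (-d) := pow_val v π hπ d
      have hlt1 : v (π ^ d * t) < 1 := by
        rw [map_mul, hπd]
        calc exp (-d) * v t ≤ exp (-d) * 1 := mul_le_mul_right ht _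
          _ < 1 := by
            rw [mul_one, ← exp_zero, exp_lt_exp]
            omega
      have hu : v (1 + π ^ d * t) = 1 := by
        rw [Valuation.map_add_eq_of_lt_left v (by rw [map_one]; exact hlt1), map_one]
      have hu0 : 1 + π ^ d * t ≠ 0 := by
        intro h0
        rw [h0, map_zero] at hu
        exact zero_ne_one hu
      refine ⟨y / (1 + π ^ d * t), ?_, Or.inl ?_⟩
      · rw [div_pow, mul_div_assoc', map_div₀, hy, map_pow, hu, one_pow, div_one]
      · have e1 : m * (y / (1 + π ^ d * t)) ^ 2 - 1 =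
            (π ^ (2 * d) * ((m * y ^ 2 - 1) / π ^ (2 * d) - t ^ 2) - 2 * π ^ d * t) /
              (1 + π ^ d * t) ^ 2 := by
          have e2 : π ^ (2 * d) = (π ^ d) ^ 2 := by
            rw [two_mul, zpow_add₀ hπ0, pow_two]
          rw [e2]
          have e3 : π ^ d ≠ 0 := zpow_ne_zero d hπ0
          generalize π ^ d = P at *
          field_simp
          ring
        rw [e1, map_div₀, map_pow, hu, one_pow, div_one]
        push_cast
        apply hlt
        rw [hjd]
        apply Valuation.map_sub_lt v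
        · rw [map_mul, pow_val v π hπ]
          calc exp (-(2 * d)) * v ((m * y ^ 2 - 1) / π ^ (2 * d) - t ^ 2) <
              exp (-(2 * d)) * 1 := mul_lt_mul_of_pos_left ht2 exp_pos
            _ = exp (-(2 * d)) := mul_one _
        · rw [map_mul, map_mul, hπd]
          rw [hd] at h8
          calc v 2 * exp (-d) * v t ≤ v 2 * exp (-d) * 1 := mul_le_mul_right ht _
            _ = v 2 * exp (-d) := mul_one _
            _ < exp (-d) * exp (-d) := mul_lt_mul_of_pos_right h8 exp_pos
            _ = exp (-(2 * d)) := by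
              rw [← exp_add]
              congr 1
              ring
  have h40 : v 4 ≠ 0 := by
    rw [h4]
    exact pow_ne_zero 2 h20
  obtain ⟨y, hy, h | h⟩ := claim (-log (v 4)).toNat
  · refine ⟨y, hy, h.trans ?_⟩
    calc exp (-(((-log (v 4)).toNat : ℤ) + 1)) ≤ exp (log (v 4)) := exp_le_exp.2 (by
          have := Int.self_le_toNat (-log (v 4))
          omega)
      _ = v 4 := exp_log h40
  · exact ⟨y, hy, h⟩

end val

theorem sq_ex {F : Type} [Field F] [NumberField F] (u : HeightOneSpectrum (𝓞 F))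
    (h2 : u.valuation F 2 < 1) (x : F) (hx : u.valuation F x ≤ 1) :
    ∃ t, u.valuation F t ≤ 1 ∧ u.valuation F (x - t ^ 2) < 1 := by
  obtain ⟨a, ha⟩ := u.exists_valuation_sub_lt_of_integer hx 1
  have h2u : (2 : 𝓞 F) ∈ u.asIdeal := by
    rw [← u.valuation_lt_one_iff_mem (K := F)]
    show u.valuation F (algebraMap (𝓞 F) F 2) < 1
    rw [map_ofNat]
    exact h2
  have hfin : Finite (𝓞 F ⧸ u.asIdeal) := Ideal.finiteQuotientOfFreeOfNeBot _ u.ne_bot
  have hinj : Function.Injective (fun z : 𝓞 F ⧸ u.asIdeal => z ^ 2) := by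
    intro z z' h
    have h20 : (2 : 𝓞 F ⧸ u.asIdeal) = 0 := by
      have h3 : Ideal.Quotient.mk u.asIdeal 2 = 0 := Ideal.Quotient.eq_zero_iff_mem.2 h2u
      rw [map_ofNat] at h3
      exact h3
    have h4 : (z - z') ^ 2 = 0 := by
      have h5 : z ^ 2 = z' ^ 2 := h
      calc (z - z') ^ 2 = z ^ 2 + z' ^ 2 - 2 * (z * z') := by ring
        _ = z' ^ 2 + z' ^ 2 - 2 * (z * z') := by rw [h5]
        _ = 2 * (z' ^ 2 - z * z') := by ring
        _ = 0 := by rw [h20, zero_mul]
    exact sub_eq_zero.1 (pow_eq_zero_iff two_ne_zero |>.1 h4)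
  obtain ⟨t', ht'⟩ := (Finite.injective_iff_surjective.1 hinj) (Ideal.Quotient.mk _ a)
  obtain ⟨t, rfl⟩ := Ideal.Quotient.mk_surjective t'
  have h3 : t ^ 2 - a ∈ u.asIdeal := by
    rw [← Ideal.Quotient.eq]
    rw [map_pow]
    exact ht'
  refine ⟨(t : F), u.valuation_le_one t, ?_⟩
  have h4 : x - (t : F) ^ 2 = -((algebraMap (𝓞 F) F (t ^ 2 - a)) + (algebraMap (𝓞 F) F a - x)) := by
    rw [map_sub, map_pow]
    ring
  rw [h4, Valuation.map_neg]
  apply Valuation.map_add_lt
  · exact (u.valuation_lt_one_iff_mem (K := F) _).2 h3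
  · simpa using ha

theorem t_UNQ : S_UNQ := by
  intro F F' _ _ _ _ _ m s hs hm q hq hU u hqu
  obtain ⟨⟨w, hwp, hwv⟩⟩ : Nonempty (u.asIdeal.primesOver (𝓞 F')) := inferInstance
  have hqw : (q : 𝓞 F') ∈ w := by
    have h1 : (q : 𝓞 F) ∈ w.under (𝓞 F) := by rw [← hwv.over]; exact hqu
    rw [Ideal.under_def, Ideal.mem_comap] at h1
    simpa using h1
  have hw0 : w ≠ ⊥ := by
    rintro rfl
    rw [Ideal.mem_bot] at hqw
    exact hq.ne_zero (by exact_mod_cast hqw)
  let W : HeightOneSpectrum (𝓞 F') := ⟨w, hwp, hw0⟩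
  have hWL : W.asIdeal.LiesOver u.asIdeal := hwv
  have hval : ∀ x : F, W.valuation F' (algebraMap F F' x) = u.valuation F x := by
    intro x
    rw [← HeightOneSpectrum.valuation_liesOver F' u W x]
    have hone : u.asIdeal.ramificationIdx' W.asIdeal = 1 := by
      rw [Ideal.ramificationIdx'_eq_ramificationIdx u.asIdeal W.asIdeal u.ne_bot]
      have h1 : W.asIdeal.ramificationIdx ℤ = 1 := Pool.Agent.Y38.LC.ram_one hq hU w hqw
      have h2 := Ideal.ramificationIdx_tower (R := ℤ) u.asIdeal W.asIdeal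
      rw [h1] at h2
      exact Nat.eq_one_of_mul_eq_one_left h2.symm
    rw [hone, pow_one]
  obtain ⟨π, hπ⟩ := u.valuation_exists_uniformizer F
  have h20 : u.valuation F 2 ≠ 0 := (Valuation.ne_zero_iff _).2 two_ne_zero
  by_cases h2 : u.valuation F 2 < 1
  · exact core (algebraMap F F') (u.valuation F) (W.valuation F') hval π hπ (sq_ex u h2) h2 h20
      m s hs hm
  · obtain ⟨y, hy⟩ := start (algebraMap F F') (u.valuation F) (W.valuation F') hval π hπ m s hs hm
    refine ⟨y, hy, ?_⟩
    have h21 : u.valuation F 2 = 1 := by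
      apply le_antisymm _ (not_lt.1 h2)
      have h3 : u.valuation F (algebraMap (𝓞 F) F 2) ≤ 1 := u.valuation_le_one (K := F) (2 : 𝓞 F)
      rw [map_ofNat] at h3
      exact h3
    have h4 : u.valuation F 4 = 1 := by
      have h5 : (4 : F) = 2 ^ 2 := by norm_num
      rw [h5, map_pow, h21, one_pow]
    rw [h4]
    exact Valuation.map_sub_le _ hy.le (by rw [map_one])

end Pool.Agent.N592.LT.UNQ
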